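import Mathlib
import Pool.Agent.Helper69.BQ.St.E
import Pool.Agent.Helper25.ClAct

/-!
# Project BQ, piece E5: generators from certificates (`MP_282bb6_nt`)
-/

namespace Pool.Agent.Helper96.BQ

open Module NumberField Pool.Agent.Helper25.Biq Pool.Agent.Helper69.BQ

variable {K : Type} [Field K] [NumberField K] {g12 g13 g23 : ℤ}

private lemma exists_TT' {a : 𝓞 K} {I : Ideal (𝓞 K)} (ha : a ≠ 0) (hI : I ^ 2 = Ideal.span {a}) :
    ∃ t : TT K, toQ t = (UCl K).mkQ (sc (algebraMap (𝓞 K) K a)) ∧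
      ∀ g : K ≃ₐ[ℚ] K, toQ (act g t) = (UCl K).mkQ (sc (g (algebraMap (𝓞 K) K a))) := by
  have hI0 : I ≠ 0 := by
    rintro rfl
    apply ha
    have h : (0 : Ideal (𝓞 K)) = Ideal.span {a} := by
      rw [← hI]
      exact (zero_pow two_ne_zero).symm
    have h2 : Ideal.span {a} = ⊥ := h.symm
    exact Ideal.span_singleton_eq_bot.1 h2
  have hI1 : I ∈ nonZeroDivisors (Ideal (𝓞 K)) := mem_nonZeroDivisors_of_ne_zero hI0
  have hm : I ^ 2 ∈ nonZeroDivisors (Ideal (𝓞 K)) := pow_mem hI1 2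
  have h0 : (⟨I ^ 2, hm⟩ : nonZeroDivisors (Ideal (𝓞 K))) = ⟨I, hI1⟩ ^ 2 := rfl
  have h1 : ClassGroup.mk0 (⟨I, hI1⟩ : nonZeroDivisors (Ideal (𝓞 K))) ^ 2 = 1 := by
    rw [← map_pow, ← h0]
    refine (ClassGroup.mk0_eq_one_iff hm).2 ?_
    rw [hI]
    exact ⟨⟨a, rfl⟩⟩
  refine ⟨TT.mk _ h1, ?_, ?_⟩
  · exact toQ_eq (I := ⟨I, hI1⟩) ha hI (TT.val_mk _ h1).symm
  · intro g
    exact toQ_act (I := ⟨I, hI1⟩) ha hI (TT.val_mk _ h1).symm

private lemma ev_add (D : Dat K g12 g13 g23) (x y : Q4) :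
    D.ev (Q4.add x y) = D.ev x + D.ev y := by
  simp only [Dat.ev, Q4.add]
  push_cast
  ring

private lemma ev_scal (D : Dat K g12 g13 g23) (k : ℤ) (x : Q4) :
    D.ev (Q4.scal k x) = (k : K) * D.ev x := by
  simp only [Dat.ev, Q4.scal]
  push_cast
  ring

/-- The computation of the class of `t + g t`. -/
private lemma cls {t : TT K} {α : K} {g : K ≃ₐ[ℚ] K} (hα : α ≠ 0) (h1 : toQ t = (UCl K).mkQ (sc α))
    (h2 : toQ (act g t) = (UCl K).mkQ (sc (g α))) {w c : ℤ} {β : K} (hw : w ≠ 0) (hc : c ≠ 0)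
    (hβ : β ≠ 0) (h : (w : K) * (w : K) * (α * g α) = (c : K) * (β * β)) :
    toQ (t + act g t) = (UCl K).mkQ (sc (algebraMap ℚ K c)) := by
  have hg : g α ≠ 0 := (map_ne_zero_iff _ g.injective).2 hα
  have hw' : (w : K) ≠ 0 := Int.cast_ne_zero.2 hw
  have hc' : (c : K) ≠ 0 := Int.cast_ne_zero.2 hc
  rw [map_add, h1, h2, ← map_add, ← sc_mul hα hg]
  congr 1
  have e : algebraMap ℚ K (c : ℚ) = (c : K) := by simp
  rw [e, sc_eq_iff (mul_ne_zero hα hg) hc']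
  refine ⟨β / w, div_ne_zero hβ hw', ?_⟩
  field_simp
  linear_combination h

/-- E5 (from E1-E4 and `exists_TT`). -/
theorem gen_exists (D : Dat K g12 g13 g23) (h2 : 2 ∣ g23) (h4 : 4 ∣ g12 + g13) {c1 c2 : ℤ}
    {g : GC} (hg : g.ok g12 g13 g23 c1 c2 = true) :
    ∃ t : TT K, toQ (t + act D.σ t) = (UCl K).mkQ (sc (algebraMap ℚ K c1)) ∧
      toQ (t + act D.τ t) = (UCl K).mkQ (sc (algebraMap ℚ K c2)) := by
  have h4' : 2 ∣ g12 + g13 := (by norm_num : (2 : ℤ) ∣ 4).trans h4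
  simp only [GC.ok, Bool.and_eq_true, decide_eq_true_eq] at hg
  obtain ⟨⟨⟨⟨⟨⟨⟨⟨⟨e1, e2⟩, e3⟩, e4⟩, hw1⟩, hw2⟩, hc1⟩, hc2⟩, hn1⟩, hn2⟩ := hg
  have f1 := congrArg D.ev e1
  have f2 := congrArg D.ev e2
  have f3 := congrArg D.ev e3
  have f4 := congrArg D.ev e4
  simp only [ev_add, ev_scal, ev_mul D h2 h4'] at f1 f2 f3 f4
  rw [← (ev_aut D g.al).1] at f3
  rw [← (ev_aut D g.al).2] at f4
  -- the two elements of the quadratic fields
  have b1 : D.ev ⟨g.x1, g.y1, 0, 0⟩ = (g.x1 : K) + g.y1 * D.s1 := by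
    simp only [Dat.ev]; push_cast; ring
  have b2 : D.ev ⟨g.x2, 0, g.y2, 0⟩ = (g.x2 : K) + g.y2 * D.s2 := by
    simp only [Dat.ev]; push_cast; ring
  have one : D.ev ⟨1, 0, 0, 0⟩ = 1 := by
    simp only [Dat.ev]; push_cast; ring
  rw [one] at f2
  have hb1 : D.ev ⟨g.x1, g.y1, 0, 0⟩ ≠ 0 := by
    rw [b1]
    intro h
    apply hn1
    have h5 : ((g.x1 * g.x1 : ℤ) : K) = ((g12 * g13 * (g.y1 * g.y1) : ℤ) : K) := by
      have := D.q1
      push_cast at this ⊢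
      linear_combination (g.x1 - g.y1 * D.s1) * h + (g.y1 : K) ^ 2 * this
    exact_mod_cast h5
  have hb2 : D.ev ⟨g.x2, 0, g.y2, 0⟩ ≠ 0 := by
    rw [b2]
    intro h
    apply hn2
    have h5 : ((g.x2 * g.x2 : ℤ) : K) = ((g12 * g23 * (g.y2 * g.y2) : ℤ) : K) := by
      have := D.q2
      push_cast at this ⊢
      linear_combination (g.x2 - g.y2 * D.s2) * h + (g.y2 : K) ^ 2 * this
    exact_mod_cast h5
  have hα : D.ev g.al ≠ 0 := by
    intro h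
    rw [h] at f3
    have hc1' : (c1 : K) ≠ 0 := Int.cast_ne_zero.2 hc1
    apply mul_ne_zero hc1' (mul_ne_zero hb1 hb1)
    rw [← f3]
    ring
  -- the integers
  let a : 𝓞 K := ⟨D.ev g.al, ev_int D h2 h4 g.al⟩
  let a' : 𝓞 K := ⟨D.ev g.al2, ev_int D h2 h4 g.al2⟩
  let m : 𝓞 K := ⟨D.ev g.m, ev_int D h2 h4 g.m⟩
  let x : 𝓞 K := ⟨D.ev g.x, ev_int D h2 h4 g.x⟩
  let y : 𝓞 K := ⟨D.ev g.y, ev_int D h2 h4 g.y⟩
  have ha : a ≠ 0 := by
    intro h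
    exact hα (congrArg (algebraMap (𝓞 K) K) h)
  have i1 : a * a' = m ^ 2 := by
    apply RingOfIntegers.ext
    show D.ev g.al * D.ev g.al2 = (D.ev g.m) ^ 2
    rw [f1, sq]
  have i2 : x * a + y * a' = 1 := by
    apply RingOfIntegers.ext
    show D.ev g.x * D.ev g.al + D.ev g.y * D.ev g.al2 = 1
    exact f2
  obtain ⟨t, ht, hgt⟩ := exists_TT' ha (sq_ideal i1 i2)
  refine ⟨t, ?_, ?_⟩
  · refine cls (α := D.ev g.al) hα ht (hgt D.σ) hw1 hc1 hb1 ?_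
    rw [← f3]
    push_cast
    ring
  · refine cls (α := D.ev g.al) hα ht (hgt D.τ) hw2 hc2 hb2 ?_
    rw [← f4]
    push_cast
    ring

end Pool.Agent.Helper96.BQ
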